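import Mathlib
import Pool.Agent.H6.NB.Targets

/-!
# Level two of decision trees (module DTL)
-/

set_option autoImplicit false

open Finset

namespace Pool.Agent.H57.NB.DTL

open Pool.Agent.H6.NB

abbrev Tree (V : Type) := Pool.Agent.H68.AC.DT V

variable {V : Type} [DecidableEq V]

/-- the variables queried by a tree -/
def qv (y : V → Bool) : Tree V → Finset V
  | .leaf _ => ∅
  | .node v l r => insert v (if y v then qv y r else qv y l)

theorem card_qv (y : V → Bool) (t : Tree V) : (qv y t).card ≤ t.depth := by
  induction t with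
  | leaf b => simp [qv]
  | node v l r ihl ihr =>
    simp only [qv, Pool.Agent.H68.AC.DT.depth]
    refine (card_insert_le _ _).trans ?_
    split_ifs
    · have := le_max_right l.depth r.depth; omega
    · have := le_max_left l.depth r.depth; omega

theorem qv_congr (y y' : V → Bool) (t : Tree V) (h : ∀ v ∈ qv y t, y' v = y v) :
    qv y' t = qv y t ∧ t.eval y' = t.eval y := by
  induction t with
  | leaf b => exact ⟨rfl, rfl⟩
  | node v l r ihl ihr =>
    have hv : y' v = y v := h v (by simp [qv])
    simp only [qv, Pool.Agent.H68.AC.DT.eval, hv]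
    cases hy : y v
    · have := ihl fun u hu => h u (by simp [qv, hy, hu])
      simp only [Bool.false_eq_true, if_false, cond_false]
      exact ⟨by rw [this.1], this.2⟩
    · have := ihr fun u hu => h u (by simp [qv, hy, hu])
      simp only [if_true, cond_true]
      exact ⟨by rw [this.1], this.2⟩

/-- a chosen element -/
noncomputable def pick (A : Finset V) (h : A.Nonempty) : V := h.choose

theorem pick_mem (A : Finset V) (h : A.Nonempty) : pick A h ∈ A := h.choose_spec

theorem pick_congr (A A' : Finset V) (h : A.Nonempty) (h' : A'.Nonempty) (e : A = A') : pick A h = pick A' h' := by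
  subst e; rfl

/-- flip one value -/
def flip (y : V → Bool) (a : V) : V → Bool := Function.update y a (!y a)

theorem flip_flip (y : V → Bool) (a : V) : flip (flip y a) a = y := by
  funext v
  by_cases h : v = a
  · subst h; simp [flip]
  · simp [flip, h]

variable [Fintype V]

theorem sum_zero (t : Tree V) (S : Finset V) :
    ∑ y ∈ univ.filter (fun y : V → Bool => ¬ S ⊆ qv y t), bi (t.eval y) * ∏ u ∈ S, sg (y u) = 0 := by
  have hne : ∀ y : V → Bool, y ∈ univ.filter (fun y : V → Bool => ¬ S ⊆ qv y t) → (S \ qv y t).Nonempty := by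
    intro y hy
    rw [mem_filter] at hy
    rw [Finset.sdiff_nonempty]
    exact hy.2
  have hflip : ∀ y : V → Bool, ∀ a, a ∉ qv y t → qv (flip y a) t = qv y t ∧ t.eval (flip y a) = t.eval y := by
    intro y a ha
    apply qv_congr
    intro v hv
    have : v ≠ a := fun h => ha (h ▸ hv)
    simp [flip, this]
  refine Finset.sum_involution (fun y hy => flip y (pick (S \ qv y t) (hne y hy))) ?_ ?_ ?_ ?_
  · intro y hy
    have hm := pick_mem _ (hne y hy)
    rw [mem_sdiff] at hm
    set a := pick (S \ qv y t) (hne y hy) with ha
    rw [(hflip y a hm.2).2]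
    have h1 : ∏ u ∈ S, sg (flip y a u) = -∏ u ∈ S, sg (y u) := by
      rw [← Finset.mul_prod_erase S _ hm.1, ← Finset.mul_prod_erase S (fun u => sg (y u)) hm.1]
      have h2 : ∏ u ∈ S.erase a, sg (flip y a u) = ∏ u ∈ S.erase a, sg (y u) := by
        refine Finset.prod_congr rfl fun u hu => ?_
        have : u ≠ a := (mem_erase.mp hu).1
        simp [flip, this]
      rw [h2]
      have h3 : sg (flip y a a) = -sg (y a) := by
        simp only [flip, Function.update_self, sg]
        cases y a <;> simp
      rw [h3]; ring
    rw [h1]; ring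
  · intro y hy _ h
    have h1 := congrFun h (pick (S \ qv y t) (hne y hy))
    simp [flip] at h1
  · intro y hy
    have hm := pick_mem _ (hne y hy)
    rw [mem_sdiff] at hm
    rw [mem_filter] at hy ⊢
    refine ⟨mem_univ _, ?_⟩
    rw [(hflip y _ hm.2).1]
    exact hy.2
  · intro y hy
    have hm := pick_mem _ (hne y hy)
    rw [mem_sdiff] at hm
    have h1 := (hflip y _ hm.2).1
    have h2 : ∀ h, pick (S \ qv (flip y (pick (S \ qv y t) (hne y hy))) t) h = pick (S \ qv y t) (hne y hy) := by
      intro h
      apply pick_congr
      rw [h1]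
    simp only [h2]
    exact flip_flip _ _

theorem hat_le (t : Tree V) (S : Finset V) :
    |hat (fun y => bi (t.eval y)) S| ≤
      ((univ.filter (fun y : V → Bool => S ⊆ qv y t)).card : ℝ) / 2 ^ Fintype.card V := by
  rw [hat, abs_div, abs_of_pos (by positivity : (0 : ℝ) < 2 ^ Fintype.card V)]
  refine div_le_div_of_nonneg_right ?_ (by positivity)
  rw [← Finset.sum_filter_add_sum_filter_not univ (fun y : V → Bool => S ⊆ qv y t), sum_zero, add_zero]
  refine (Finset.abs_sum_le_sum_abs _ _).trans ?_
  rw [Finset.card_eq_sum_ones, Nat.cast_sum]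
  refine Finset.sum_le_sum fun y _ => ?_
  have h1 : |∏ u ∈ S, sg (y u)| = 1 := by
    rw [Finset.abs_prod]
    refine Finset.prod_eq_one fun u _ => ?_
    simp only [sg]
    split_ifs <;> simp
  rw [abs_mul, h1, mul_one]
  simp only [bi]
  split_ifs <;> simp

theorem t_dtl : T_DTL := by
  intro V _ _ t w hw
  have hpos : (0 : ℝ) < 2 ^ Fintype.card V := by positivity
  rw [L12]
  calc ∑ S ∈ powersetCard 2 (univ : Finset V), |hat (fun y => bi (t.eval y)) S|
      ≤ ∑ S ∈ powersetCard 2 (univ : Finset V),
        ((univ.filter (fun y : V → Bool => S ⊆ qv y t)).card : ℝ) / 2 ^ Fintype.card V :=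
        Finset.sum_le_sum fun S _ => hat_le t S
    _ = (∑ y : V → Bool, ((powersetCard 2 (univ : Finset V)).filter (fun S => S ⊆ qv y t)).card : ℕ) /
        2 ^ Fintype.card V := by
        rw [← Finset.sum_div]
        congr 1
        rw [← Nat.cast_sum]
        congr 1
        simp only [Finset.card_filter]
        exact Finset.sum_comm
    _ ≤ (∑ y : V → Bool, w ^ 2 : ℕ) / 2 ^ Fintype.card V := by
        refine div_le_div_of_nonneg_right ?_ hpos.le
        norm_cast
        refine Finset.sum_le_sum fun y _ => ?_
        have h1 : (powersetCard 2 (univ : Finset V)).filter (fun S => S ⊆ qv y t) = powersetCard 2 (qv y t) := by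
          ext S
          simp only [mem_filter, mem_powersetCard, subset_univ, true_and]
          tauto
        rw [h1, card_powersetCard]
        have h2 : (qv y t).card ≤ w := (card_qv y t).trans hw
        calc (qv y t).card.choose 2 ≤ (qv y t).card ^ 2 := Nat.choose_le_pow _ _
          _ ≤ w ^ 2 := Nat.pow_le_pow_left h2 2
    _ = (w : ℝ) ^ 2 := by
        rw [Finset.sum_const, Finset.card_univ, Fintype.card_fun, Fintype.card_bool]
        rw [smul_eq_mul]
        push_cast
        field_simp

end Pool.Agent.H57.NB.DTL
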