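import Mathlib
import Pool.Agent.H6.NB.Targets

/-!
# The keys can be read with high probability (module DCP)
-/

set_option autoImplicit false

open Finset

namespace Pool.Agent.H57.NB.DCP

open Pool.Agent.H6.NB

theorem sum_prod {A : Type} [Fintype A] [DecidableEq A] {N : ℕ} (g : Fin N → A → ℝ) :
    ∑ p : Fin N → A, ∏ i, g i (p i) = ∏ i, ∑ a, g i a := by
  rw [Finset.prod_univ_sum, Fintype.piFinset_univ]

open Classical in
theorem t_dcp (h1 : T_PHL) (h2 : T_PHU) (h3 : T_MUP) : T_DCP := by
  intro q N b
  obtain ⟨mu0, mu1, -⟩ := h3 b q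
  have he0 : 0 < eps2 q := by unfold eps2; positivity
  have he1 : eps2 q ≤ 1 := by
    unfold eps2
    rw [div_le_one (by positivity)]
    have : (0 : ℝ) ≤ q := by positivity
    linarith
  have hpow : 0 ≤ (1 - eps2 q / 4) ^ N := pow_nonneg (by linarith) N
  cases b
  · -- false
    have hle : ∀ p : Fin N → VV q → Bool, (∏ i, mu false q (p i)) * (if DecA q N false p then 0 else 1) ≤
        3 * N * ∑ i, ∏ j, (mu false q (p j) * (if j = i then phi q (p j) ^ 2 else 1)) := by
      intro p
      have hprod : 0 ≤ ∏ i, mu false q (p i) := Finset.prod_nonneg fun i _ => mu0 _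
      have h4 : ∀ i, ∏ j, (mu false q (p j) * (if j = i then phi q (p j) ^ 2 else 1)) =
          (∏ j, mu false q (p j)) * phi q (p i) ^ 2 := by
        intro i
        rw [Finset.prod_mul_distrib]
        congr 1
        rw [Finset.prod_ite_eq' univ i]
        simp
      rw [Finset.sum_congr rfl fun i _ => h4 i, ← Finset.mul_sum]
      have hs : 0 ≤ ∑ i, phi q (p i) ^ 2 := Finset.sum_nonneg fun i _ => sq_nonneg _
      split_ifs with hd
      · rw [mul_zero]; positivity
      · have h5 : 1 / 3 < ∑ i, (N : ℝ) * phi q (p i) ^ 2 := by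
          by_contra hcon
          push Not at hcon
          exact hd ⟨fun _ => hcon, fun h => by simp at h⟩
        rw [← Finset.mul_sum] at h5
        have h6 : 3 * (N : ℝ) * ((∏ j, mu false q (p j)) * ∑ i, phi q (p i) ^ 2) =
            (∏ j, mu false q (p j)) * (3 * (N * ∑ i, phi q (p i) ^ 2)) := by ring
        rw [h6]
        exact mul_le_mul_of_nonneg_left (by linarith) hprod
    calc ∑ p : Fin N → VV q → Bool, (∏ i, mu false q (p i)) * (if DecA q N false p then 0 else 1)
        ≤ ∑ p : Fin N → VV q → Bool,
          3 * N * ∑ i, ∏ j, (mu false q (p j) * (if j = i then phi q (p j) ^ 2 else 1)) :=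
          Finset.sum_le_sum fun p _ => hle p
      _ = 3 * N * ∑ i : Fin N, ∑ p : Fin N → VV q → Bool,
          ∏ j, (mu false q (p j) * (if j = i then phi q (p j) ^ 2 else 1)) := by
          rw [← Finset.mul_sum, Finset.sum_comm]
      _ = 3 * N * ∑ i : Fin N, (1 / 2 ^ q : ℝ) := by
          congr 1
          refine Finset.sum_congr rfl fun i _ => ?_
          rw [sum_prod (fun j a => mu false q a * (if j = i then phi q a ^ 2 else 1))]
          rw [← Finset.mul_prod_erase univ _ (mem_univ i)]
          rw [Finset.prod_eq_one (s := univ.erase i)]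
          · simp only [if_true, mul_one]
            exact h2 q
          · intro j hj
            have : j ≠ i := (mem_erase.mp hj).1
            simp only [this, if_false, mul_one]
            exact mu1
      _ = 3 * (N : ℝ) ^ 2 / 2 ^ q := by
          rw [Finset.sum_const, Finset.card_univ, Fintype.card_fin, nsmul_eq_mul]; ring
      _ ≤ _ := by linarith
  · -- true
    have hle : ∀ p : Fin N → VV q → Bool, (∏ i, mu true q (p i)) * (if DecA q N true p then 0 else 1) =
        ∏ i, (mu true q (p i) * (if eps2 q / 4 ≤ phi q (p i) then 0 else 1)) := by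
      intro p
      rw [Finset.prod_mul_distrib]
      congr 1
      split_ifs with hd
      · obtain ⟨i, hi⟩ := hd.2 rfl
        rw [Finset.prod_eq_zero (mem_univ i)]
        rw [if_pos hi]
      · symm
        refine Finset.prod_eq_one fun i _ => ?_
        rw [if_neg]
        intro hi
        exact hd ⟨fun h => by simp at h, fun _ => ⟨i, hi⟩⟩
    rw [Finset.sum_congr rfl fun p _ => hle p,
      sum_prod (fun _ a => mu true q a * (if eps2 q / 4 ≤ phi q a then 0 else 1)), Finset.prod_const,
      Finset.card_univ, Fintype.card_fin]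
    have h4 : ∑ a, mu true q a * (if eps2 q / 4 ≤ phi q a then (0 : ℝ) else 1) =
        1 - ∑ p ∈ univ.filter (fun p => eps2 q / 4 ≤ phi q p), mu true q p := by
      have e1 : ∑ a, mu true q a * (if eps2 q / 4 ≤ phi q a then (0 : ℝ) else 1) =
          ∑ p ∈ univ.filter (fun p => ¬ eps2 q / 4 ≤ phi q p), mu true q p := by
        rw [Finset.sum_filter]
        refine Finset.sum_congr rfl fun a _ => ?_
        by_cases h : eps2 q / 4 ≤ phi q a
        · simp [h]
        · simp [h]
      have e2 := Finset.sum_filter_add_sum_filter_not univ (fun p => eps2 q / 4 ≤ phi q p) (mu true q)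
      rw [e1]
      linarith
    have h5 := h1 q
    have h6 : ∑ p ∈ univ.filter (fun p => eps2 q / 4 ≤ phi q p), mu true q p ≤ 1 := by
      rw [← mu1]
      exact Finset.sum_le_sum_of_subset_of_nonneg (filter_subset _ _) fun p _ _ => mu0 p
    rw [h4]
    have h7 : (1 - ∑ p ∈ univ.filter (fun p => eps2 q / 4 ≤ phi q p), mu true q p) ^ N ≤
        (1 - eps2 q / 4) ^ N := by
      refine pow_le_pow_left₀ (by linarith) ?_ N
      convert (sub_le_sub_left h5 1) using 2
    have h8 : (0 : ℝ) ≤ 3 * (N : ℝ) ^ 2 / 2 ^ q := by positivity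
    linarith

end Pool.Agent.H57.NB.DCP
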