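import Mathlib
import Pool.Agent.H6.NB.Targets

/-!
# The parameters of the induction are polynomial (module PAA)
-/

set_option autoImplicit false

open Finset

namespace Pool.Agent.H57.NB.PAA

open Pool.Agent.H6.NB

/-- the pair `(k j, K j)` -/
def kk (t : ℕ) (r : ℕ → ℕ) : ℕ → ℕ × ℕ
  | 0 => ((2 * t + 1) * (5 * t * r 0), (2 * t + 1) * (5 * t * r 0) + t)
  | j + 1 => ((2 * (t * (kk t r j).2) + 1) * (5 * (t * (kk t r j).2 + (kk t r j).1) * r (j + 1)),
      (2 * (t * (kk t r j).2) + 1) * (5 * (t * (kk t r j).2 + (kk t r j).1) * r (j + 1)) + t * (kk t r j).2)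

/-- the exponents -/
def Bf (b c : ℕ) : ℕ → ℕ
  | 0 => 4 + 2 * b + c
  | j + 1 => 5 + 2 * b + 2 * Bf b c j + c

theorem Bf_mono (b c : ℕ) : Monotone (Bf b c) :=
  monotone_nat_of_le_succ fun j => by simp only [Bf]; omega

theorem kk_bound (n t b c : ℕ) (r : ℕ → ℕ) (hn : 2 ≤ n) (ht : 1 ≤ t) (htb : t ≤ n ^ b)
    (hr : ∀ j, r j ≤ n ^ c) (j : ℕ) :
    (kk t r j).1 ≤ (kk t r j).2 ∧ 1 ≤ (kk t r j).2 ∧ (kk t r j).2 ≤ n ^ Bf b c j := by
  have hn0 : 1 ≤ n := by omega
  induction j with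
  | zero =>
    refine ⟨?_, ?_, ?_⟩
    · simp only [kk]; omega
    · simp only [kk]; omega
    · simp only [kk, Bf]
      have h1 : (2 * t + 1) * (5 * t * r 0) ≤ (3 * t) * (5 * t * n ^ c) :=
        Nat.mul_le_mul (by omega) (Nat.mul_le_mul_left _ (hr 0))
      have h2 : t ≤ t * t * n ^ c := by
        have h3 : 1 ≤ t * n ^ c := Nat.mul_pos ht (Nat.pow_pos (by omega))
        calc t = t * 1 := (mul_one t).symm
          _ ≤ t * (t * n ^ c) := Nat.mul_le_mul_left _ h3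
          _ = t * t * n ^ c := by ring
      have h16 : 16 ≤ n ^ 4 := by
        calc 16 = 2 ^ 4 := by norm_num
          _ ≤ n ^ 4 := Nat.pow_le_pow_left hn 4
      calc (2 * t + 1) * (5 * t * r 0) + t ≤ 15 * (t * t * n ^ c) + t * t * n ^ c := by nlinarith
        _ = 16 * (t * t) * n ^ c := by ring
        _ ≤ n ^ 4 * (n ^ b * n ^ b) * n ^ c := by gcongr
        _ = n ^ (4 + 2 * b + c) := by rw [← pow_add, ← pow_add, ← pow_add]; congr 1; ring
  | succ j ih =>
    obtain ⟨i1, i2, i3⟩ := ih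
    set k := (kk t r j).1 with hk
    set K := (kk t r j).2 with hK
    have htK : 1 ≤ t * K := Nat.mul_pos ht i2
    have hkK : k ≤ t * K := i1.trans (Nat.le_mul_of_pos_left K ht)
    refine ⟨?_, ?_, ?_⟩
    · simp only [kk]; omega
    · simp only [kk]
      rw [← hK]; omega
    · simp only [kk, Bf]
      rw [← hk, ← hK]
      have h1 : (2 * (t * K) + 1) * (5 * (t * K + k) * r (j + 1)) ≤ (3 * (t * K)) * (5 * (2 * (t * K)) * n ^ c) :=
        Nat.mul_le_mul (by omega) (Nat.mul_le_mul (by omega) (hr _))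
      have h2 : t * K ≤ (t * K) * (t * K) * n ^ c := by
        have h3 : 1 ≤ (t * K) * n ^ c := Nat.mul_pos htK (Nat.pow_pos (by omega))
        calc t * K = (t * K) * 1 := (mul_one _).symm
          _ ≤ (t * K) * ((t * K) * n ^ c) := Nat.mul_le_mul_left _ h3
          _ = _ := by ring
      have h32 : 31 ≤ n ^ 5 := by
        calc 31 ≤ 2 ^ 5 := by norm_num
          _ ≤ n ^ 5 := Nat.pow_le_pow_left hn 5
      calc (2 * (t * K) + 1) * (5 * (t * K + k) * r (j + 1)) + t * K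
          ≤ 30 * ((t * K) * (t * K) * n ^ c) + (t * K) * (t * K) * n ^ c := by nlinarith
        _ = 31 * ((t * K) * (t * K)) * n ^ c := by ring
        _ ≤ n ^ 5 * ((n ^ b * n ^ Bf b c j) * (n ^ b * n ^ Bf b c j)) * n ^ c := by gcongr
        _ = n ^ (5 + 2 * b + 2 * Bf b c j + c) := by
            rw [← pow_add, ← pow_add, ← pow_add, ← pow_add]; congr 1; ring

theorem t_paa : T_PAA := by
  intro a b
  refine ⟨Bf b (3 * a + b + 1) a, fun n t R hn ht htb hRb => ?_⟩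
  set r : ℕ → ℕ := fun j => (n + 4) ^ (a - j) * (R + 1) with hr
  have hn4 : n + 4 ≤ n ^ 3 := by
    have : n ^ 3 = n * n * n := by ring
    rw [this]
    have h1 : 4 ≤ n * n := Nat.mul_le_mul hn hn
    nlinarith
  have hrc : ∀ j, r j ≤ n ^ (3 * a + b + 1) := by
    intro j
    have h1 : (n + 4) ^ (a - j) ≤ n ^ (3 * a) := by
      calc (n + 4) ^ (a - j) ≤ (n ^ 3) ^ (a - j) := Nat.pow_le_pow_left hn4 _
        _ = n ^ (3 * (a - j)) := by rw [pow_mul]
        _ ≤ n ^ (3 * a) := Nat.pow_le_pow_right (by omega) (by omega)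
    have h2 : R + 1 ≤ n ^ (b + 1) := by
      have h3 : 1 ≤ n ^ b := Nat.pow_pos (by omega)
      rw [pow_succ]
      nlinarith
    calc r j ≤ n ^ (3 * a) * n ^ (b + 1) := Nat.mul_le_mul h1 h2
      _ = n ^ (3 * a + b + 1) := by rw [← pow_add]; congr 1
  have hb := kk_bound n t b (3 * a + b + 1) r hn ht htb hrc
  refine ⟨r, fun j => (kk t r j).1, fun j => (kk t r j).2, ⟨ht, le_rfl, le_rfl, fun j => le_rfl, fun j => le_rfl, ?_⟩,
    ?_, ?_⟩
  · intro j hj
    have h1 : r j = (n + 4) * r (j + 1) := by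
      simp only [hr]
      have : a - j = (a - (j + 1)) + 1 := by omega
      rw [this, pow_succ]; ring
    have h2 : 1 ≤ r (j + 1) := Nat.mul_pos (Nat.pow_pos (by omega)) (by omega)
    rw [h1]
    set ρ := r (j + 1) with hρ
    have h3 : 2 ^ n + 1 ≤ 2 ^ (n + 1) := by
      have : 1 ≤ 2 ^ n := Nat.one_le_two_pow
      rw [pow_succ]; omega
    calc (2 ^ n + 1) ^ ρ * 2 * 4 ^ ρ ≤ (2 ^ (n + 1)) ^ ρ * 2 * 4 ^ ρ := by gcongr
      _ = 2 ^ ((n + 1) * ρ + 1 + 2 * ρ) := by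
          rw [pow_add 2 ((n + 1) * ρ + 1) (2 * ρ), pow_add 2 ((n + 1) * ρ) 1, pow_mul 2 (n + 1) ρ,
            pow_mul 2 2 ρ]
          norm_num
      _ ≤ 2 ^ (2 * ((n + 4) * ρ)) := Nat.pow_le_pow_right (by norm_num) (by nlinarith)
      _ = 4 ^ ((n + 4) * ρ) := by rw [pow_mul]; norm_num
  · intro j _
    simp only [hr]
    calc R ≤ 1 * (R + 1) := by omega
      _ ≤ (n + 4) ^ (a - j) * (R + 1) := Nat.mul_le_mul_right _ (Nat.pow_pos (by omega))
  · intro j hj
    exact (hb j).2.2.trans (Nat.pow_le_pow_right (by omega) (Bf_mono _ _ hj.le))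

end Pool.Agent.H57.NB.PAA
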