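import Mathlib
import Pool.Agent.H6.NB.Targets

/-!
# Estimates for the error terms (module NUM)
-/

set_option autoImplicit false

open Finset

namespace Pool.Agent.H57.NB.NUM

open Pool.Agent.H6.NB

theorem pow4 (l : ℕ) : (10 * l + 101) ^ 4 ≤ 2 ^ (2 * l + 27) := by
  induction l with
  | zero => norm_num
  | succ l ih =>
    have h1 : 10 * (10 * (l + 1) + 101) ≤ 11 * (10 * l + 101) := by omega
    have h2 : (10 * (10 * (l + 1) + 101)) ^ 4 ≤ (11 * (10 * l + 101)) ^ 4 := Nat.pow_le_pow_left h1 4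
    rw [mul_pow, mul_pow] at h2
    have h3 : 2 ^ (2 * (l + 1) + 27) = 4 * 2 ^ (2 * l + 27) := by
      rw [show 2 * (l + 1) + 27 = (2 * l + 27) + 2 by ring, pow_add]; ring
    rw [h3]
    have h4 : 10 ^ 4 * (10 * (l + 1) + 101) ^ 4 ≤ 10 ^ 4 * (4 * 2 ^ (2 * l + 27)) := by
      refine h2.trans ?_
      have : 11 ^ 4 * (10 * l + 101) ^ 4 ≤ 11 ^ 4 * 2 ^ (2 * l + 27) := Nat.mul_le_mul_left _ ih
      refine this.trans ?_
      have h5 : (11 : ℕ) ^ 4 ≤ 10 ^ 4 * 4 := by norm_num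
      calc 11 ^ 4 * 2 ^ (2 * l + 27) ≤ (10 ^ 4 * 4) * 2 ^ (2 * l + 27) := Nat.mul_le_mul_right _ h5
        _ = _ := by ring
    exact Nat.le_of_mul_le_mul_left h4 (by norm_num)

theorem t_num : T_NUM := by
  intro s
  have hq : qs s = 10 * s.length + 100 := rfl
  have hN : ns s = (10 * s.length + 101) ^ 4 := by rw [ns, hq]
  set l := s.length with hl
  have hNr : (ns s : ℝ) ≤ 2 ^ (2 * l + 27) := by
    rw [hN]
    exact_mod_cast pow4 l
  have hN0 : (0 : ℝ) ≤ ns s := by positivity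
  have h4l : ((1 : ℝ) / 4) ^ l = 1 / 2 ^ (2 * l) := by
    rw [div_pow, one_pow, pow_mul]; norm_num
  refine ⟨?_, ?_⟩
  · have hs : √((2 : ℝ) ^ qs s) = 2 ^ (5 * l + 50) := by
      rw [hq, show 10 * l + 100 = (5 * l + 50) * 2 by ring, pow_mul]
      exact Real.sqrt_sq (by positivity)
    rw [hs, h4l, ← mul_div_assoc, div_le_div_iff₀ (by positivity) (by positivity), one_mul]
    calc (ns s : ℝ) * 2 ^ l * 2 ^ (2 * l) ≤ 2 ^ (2 * l + 27) * 2 ^ l * 2 ^ (2 * l) := by gcongr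
      _ = 2 ^ (5 * l + 27) := by rw [← pow_add, ← pow_add]; congr 1; ring
      _ ≤ 2 ^ (5 * l + 50) := pow_le_pow_right₀ (by norm_num) (by omega)
  · have h1 : 3 * (ns s : ℝ) ^ 2 / 2 ^ qs s ≤ (1 / 2) * (1 / 4) ^ l := by
      rw [h4l, hq, div_le_iff₀ (by positivity)]
      have h2 : (ns s : ℝ) ^ 2 ≤ 2 ^ (4 * l + 54) := by
        calc (ns s : ℝ) ^ 2 ≤ (2 ^ (2 * l + 27)) ^ 2 := pow_le_pow_left₀ hN0 hNr 2
          _ = 2 ^ (4 * l + 54) := by rw [← pow_mul]; congr 1; ring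
      have h3 : (1 : ℝ) / 2 * (1 / 2 ^ (2 * l)) * 2 ^ (10 * l + 100) = 2 ^ (8 * l + 99) := by
        rw [show 10 * l + 100 = 2 * l + 1 + (8 * l + 99) by ring, pow_add, pow_add]
        field_simp
      rw [h3]
      calc 3 * (ns s : ℝ) ^ 2 ≤ 4 * 2 ^ (4 * l + 54) := by nlinarith
        _ = 2 ^ (4 * l + 56) := by rw [show 4 * l + 56 = (4 * l + 54) + 2 by ring, pow_add]; ring
        _ ≤ 2 ^ (8 * l + 99) := pow_le_pow_right₀ (by norm_num) (by omega)
    have h2 : (1 - eps2 (qs s) / 4) ^ ns s ≤ (1 / 2) * (1 / 4) ^ l := by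
      set x := eps2 (qs s) / 4 with hx
      have hqr : (qs s : ℝ) = 10 * l + 100 := by rw [hq]; push_cast; ring
      have hl0 : (0 : ℝ) ≤ l := by positivity
      have hx' : x = 1 / (32 * ((qs s : ℝ) + 3)) := by
        rw [hx, eps2]; field_simp; ring
      have hx0 : 0 < x := by rw [hx']; rw [hqr]; positivity
      have hx1 : x ≤ 1 := by
        rw [hx', div_le_one (by rw [hqr]; positivity), hqr]; linarith
      have hNx : ((2 * l + 1 : ℕ) : ℝ) ≤ ns s * x := by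
        rw [hx', hN, mul_one_div, le_div_iff₀ (by rw [hqr]; positivity), hqr]
        push_cast
        have h5 : (64 : ℝ) ≤ (10 * l + 101) ^ 2 := by nlinarith
        have h6 : 32 * (10 * (l : ℝ) + 100 + 3) ≤ (10 * l + 101) ^ 3 := by nlinarith
        calc (2 * (l : ℝ) + 1) * (32 * (10 * l + 100 + 3)) ≤ (10 * l + 101) * (10 * l + 101) ^ 3 := by
              apply mul_le_mul _ h6 (by positivity) (by positivity)
              linarith
          _ = (10 * (l : ℝ) + 101) ^ 4 := by ring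
      have h7 : 1 - x ≤ Real.exp (-x) := by linarith [Real.add_one_le_exp (-x)]
      have he1 : Real.exp (-1) ≤ 1 / 2 := by
        rw [Real.exp_neg, ← one_div]
        apply one_div_le_one_div_of_le (by norm_num)
        linarith [Real.add_one_le_exp 1]
      calc (1 - x) ^ ns s ≤ (Real.exp (-x)) ^ ns s := pow_le_pow_left₀ (by linarith) h7 _
        _ = Real.exp (-(ns s * x)) := by rw [← Real.exp_nat_mul]; congr 1; ring
        _ ≤ Real.exp (-((2 * l + 1 : ℕ) : ℝ)) := Real.exp_le_exp.mpr (by linarith)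
        _ = (Real.exp (-1)) ^ (2 * l + 1) := by rw [← Real.exp_nat_mul]; congr 1; ring
        _ ≤ (1 / 2) ^ (2 * l + 1) := pow_le_pow_left₀ (Real.exp_pos _).le he1 _
        _ = (1 / 2) * (1 / 4) ^ l := by rw [pow_succ, pow_mul]; norm_num; ring
    linarith

end Pool.Agent.H57.NB.NUM
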